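import Pool.Agent.H46.EXC.Stmts

/-!
# EXC, module RNX, part 2: two triples in the same box
-/

set_option autoImplicit false

namespace Pool.EXC.Rnx48

open Finset Pool.Agent.H98.ABCR Pool.SHA Pool.ABY Pool.VIO

lemma sub_sub_real (a b : ℕ) : ((a - b : ℕ) : ℝ) - ((b - a : ℕ) : ℝ) = (a : ℝ) - b := by
  rcases le_total a b with h | h
  · rw [Nat.sub_eq_zero_of_le h, Nat.cast_sub h]
    push_cast
    ring
  · rw [Nat.sub_eq_zero_of_le h, Nat.cast_sub h]
    push_cast
    ring

lemma sub_le_abs (a b : ℕ) : ((a - b : ℕ) : ℝ) ≤ |(a : ℝ) - b| := by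
  rcases le_total a b with h | h
  · rw [Nat.sub_eq_zero_of_le h]
    push_cast
    exact abs_nonneg _
  · rw [Nat.cast_sub h]
    exact le_abs_self _

/-- The `g`-th power and the rest. -/
lemma nd (m m' p p' e f g n1 n2 : ℕ) (hm : 0 < m) (hm' : 0 < m') (hp : 0 < p) (hp' : 0 < p')
    (hd : p ^ e ∣ m) (hd' : p' ^ f ∣ m') (c a : ℝ)
    (h1 : Real.log m - e * Real.log p ≤ c) (h2 : Real.log m' - f * Real.log p' ≤ c)
    (ha : |(e : ℝ) - g * n1| * Real.log p + |(f : ℝ) - g * n2| * Real.log p' ≤ a) :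
    ∃ N D : ℕ, 0 < N ∧ 0 < D ∧ Real.log N ≤ c + a ∧ Real.log D ≤ c + a ∧
      Real.log N - Real.log D = (Real.log m - Real.log m') -
        g * (n1 * Real.log p - n2 * Real.log p') := by
  obtain ⟨r, hr⟩ := hd
  obtain ⟨r', hr'⟩ := hd'
  have hr0 : 0 < r := by
    rcases Nat.eq_zero_or_pos r with h | h
    · rw [h, mul_zero] at hr; omega
    · exact h
  have hr0' : 0 < r' := by
    rcases Nat.eq_zero_or_pos r' with h | h
    · rw [h, mul_zero] at hr'; omega
    · exact h
  have hlp : 0 ≤ Real.log p := Real.log_natCast_nonneg p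
  have hlp' : 0 ≤ Real.log p' := Real.log_natCast_nonneg p'
  have hpr : (0 : ℝ) < p := by exact_mod_cast hp
  have hpr' : (0 : ℝ) < p' := by exact_mod_cast hp'
  have hrr : (0 : ℝ) < r := by exact_mod_cast hr0
  have hrr' : (0 : ℝ) < r' := by exact_mod_cast hr0'
  have l1 : Real.log m = e * Real.log p + Real.log r := by
    rw [hr]
    push_cast
    rw [Real.log_mul (by positivity) (by positivity), Real.log_pow]
  have l2 : Real.log m' = f * Real.log p' + Real.log r' := by
    rw [hr']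
    push_cast
    rw [Real.log_mul (by positivity) (by positivity), Real.log_pow]
  have hN : Real.log ((r * p ^ (e - g * n1) * p' ^ (g * n2 - f) : ℕ) : ℝ) =
      Real.log r + ((e - g * n1 : ℕ) : ℝ) * Real.log p +
        ((g * n2 - f : ℕ) : ℝ) * Real.log p' := by
    push_cast
    rw [Real.log_mul (by positivity) (by positivity), Real.log_mul (by positivity) (by positivity),
      Real.log_pow, Real.log_pow]
  have hD : Real.log ((r' * p ^ (g * n1 - e) * p' ^ (f - g * n2) : ℕ) : ℝ) =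
      Real.log r' + ((g * n1 - e : ℕ) : ℝ) * Real.log p +
        ((f - g * n2 : ℕ) : ℝ) * Real.log p' := by
    push_cast
    rw [Real.log_mul (by positivity) (by positivity), Real.log_mul (by positivity) (by positivity),
      Real.log_pow, Real.log_pow]
  have s1 := sub_sub_real e (g * n1)
  have s2 := sub_sub_real f (g * n2)
  have t1 := sub_le_abs e (g * n1)
  have t2 := sub_le_abs (g * n1) e
  have t3 := sub_le_abs f (g * n2)
  have t4 := sub_le_abs (g * n2) f
  push_cast at s1 s2 t1 t2 t3 t4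
  rw [abs_sub_comm] at t2 t4
  refine ⟨r * p ^ (e - g * n1) * p' ^ (g * n2 - f), r' * p ^ (g * n1 - e) * p' ^ (f - g * n2),
    by positivity, by positivity, ?_, ?_, ?_⟩
  · rw [hN]
    have a1 := mul_le_mul_of_nonneg_right t1 hlp
    have a2 := mul_le_mul_of_nonneg_right t4 hlp'
    linarith
  · rw [hD]
    have a1 := mul_le_mul_of_nonneg_right t2 hlp
    have a2 := mul_le_mul_of_nonneg_right t3 hlp'
    linarith
  · rw [hN, hD, l1, l2]
    have a1 : ((e - g * n1 : ℕ) : ℝ) = ((g * n1 - e : ℕ) : ℝ) + (e - g * n1) := by linarith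
    have a2 : ((f - g * n2 : ℕ) : ℝ) = ((g * n2 - f : ℕ) : ℝ) + (f - g * n2) := by linarith
    rw [a1, a2]
    ring

/-- The contradiction. -/
lemma num (hPZ : S_PZ1) (ε : ℝ) (hε : 0 < ε) (hε1 : ε ≤ 1) (Q : ℕ) (hQ : 1 ≤ Q)
    (L h0 : ℝ) (q g Nt Dt W1 W2 : ℕ) (hL : 1000000 / ε ≤ L) (hκ : 10000 * Q * L ≤ h0)
    (hup : h0 ≤ Real.exp (ε / 1000000 * L)) (hq : 1 ≤ q) (hqQ : q ≤ Q)
    (hg : g = ⌊h0 / L / q⌋₊) (hNt : 0 < Nt) (hDt : 0 < Dt) (hW1 : 0 < W1) (hW2 : 0 < W2)
    (hne : W1 ≠ W2)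
    (bN : Real.log Nt ≤ 2 * (ε / (5000000 * Q)) * h0 + 8 * (ε / 20000000) * h0 / q)
    (bD : Real.log Dt ≤ 2 * (ε / (5000000 * Q)) * h0 + 8 * (ε / 20000000) * h0 / q)
    (bW1 : Real.log W1 ≤ 18 * q * L) (bW2 : Real.log W2 ≤ 18 * q * L)
    (hW : |Real.log W1 - Real.log W2| ≤ Real.exp (-(ε / 4 * L)))
    (hrel : |(Real.log Nt - Real.log Dt) + g * (Real.log W1 - Real.log W2)| ≤
      4 * Real.exp (-(3 / 4) * h0)) : False := by
  have hqr : (1 : ℝ) ≤ q := by exact_mod_cast hq
  have hQr : (1 : ℝ) ≤ Q := by exact_mod_cast hQ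
  have hqQr : (q : ℝ) ≤ Q := by exact_mod_cast hqQ
  have hL6 : 1000000 ≤ L := by
    refine le_trans ?_ hL
    rw [le_div_iff₀ hε]
    linarith
  have hεL : 1000000 ≤ ε * L := by
    rw [div_le_iff₀ hε] at hL
    linarith
  have hL0 : 0 < L := by linarith
  obtain ⟨G, hG⟩ : ∃ G : ℝ, G = h0 / L := ⟨_, rfl⟩
  have hGL : G * L = h0 := by rw [hG]; field_simp
  have hGQ : 10000 * Q ≤ G := by
    rw [hG, le_div_iff₀ hL0]
    linarith
  have hG0 : 0 < G := by linarith
  have hGq : 10000 ≤ G / q := by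
    rw [le_div_iff₀ (by linarith)]
    linarith
  have hQL : L ≤ Q * L := le_mul_of_one_le_left hL0.le hQr
  have hεL1 : ε * L ≤ L := mul_le_of_le_one_left hL0.le hε1
  have hGh : G ≤ h0 := by
    rw [← hGL]
    exact le_mul_of_one_le_right hG0.le (by linarith)
  rw [← hG] at hg
  have hg1 : (g : ℝ) ≤ G / q := by
    rw [hg]
    exact Nat.floor_le (by positivity)
  have hg2 : G / q < g + 1 := by
    rw [hg]
    exact Nat.lt_floor_add_one _
  have hg3 : G / q ≤ 2 * g := by linarith
  have hg4 : (9999 : ℝ) < g := by linarith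
  have hGG : G / q ≤ G := div_le_self hG0.le hqr
  obtain ⟨M, hM⟩ : ∃ M : ℕ, M = ⌊(g : ℝ) / 1000⌋₊ := ⟨_, rfl⟩
  have hM1 : (M : ℝ) ≤ g / 1000 := by
    rw [hM]
    exact Nat.floor_le (by positivity)
  have hM2 : (g : ℝ) / 1000 < M + 1 := by
    rw [hM]
    exact Nat.lt_floor_add_one _
  have hM3 : (1 : ℝ) ≤ M := by
    have h1 : (0 : ℝ) < M := by linarith
    have h2 : 0 < M := by exact_mod_cast h1
    exact_mod_cast h2
  have hM4 : (g : ℝ) / 1000 ≤ 2 * M := by linarith
  obtain ⟨n, hn⟩ : ∃ n : ℕ, n = ⌈8000 * (q : ℝ) / ε⌉₊ + 2 := ⟨_, rfl⟩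
  have hn1 : 8000 * (q : ℝ) / ε ≤ n := by
    rw [hn]
    push_cast
    have := Nat.le_ceil (8000 * (q : ℝ) / ε)
    linarith
  have hn2 : (n : ℝ) ≤ 8000 * (q : ℝ) / ε + 3 := by
    rw [hn]
    push_cast
    have := (Nat.ceil_lt_add_one (a := 8000 * (q : ℝ) / ε) (by positivity)).le
    linarith
  have hn3 : (n : ℝ) ≤ 8003 * q / ε := by
    have : 3 ≤ 3 * (q : ℝ) / ε := by
      rw [le_div_iff₀ hε]
      linarith
    calc (n : ℝ) ≤ 8000 * (q : ℝ) / ε + 3 := hn2
      _ ≤ 8000 * (q : ℝ) / ε + 3 * (q : ℝ) / ε := by linarith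
      _ = 8003 * q / ε := by ring
  have hn0 : 2 ≤ n := by rw [hn]; omega
  have hh0 : 6 ≤ h0 := by linarith
  have hh0L : 4 * L ≤ h0 := by linarith
  -- the heights
  have hgh : (g : ℝ) ≤ Real.exp (ε / 1000000 * L) := by
    linarith
  have hexp4 : 4 * Real.exp (-(3 / 4) * h0) ≤ Real.exp (-(h0 / 4)) := by
    have e1 : Real.exp (-(h0 / 4)) = Real.exp (h0 / 2) * Real.exp (-(3 / 4) * h0) := by
      rw [← Real.exp_add]
      ring_nf
    rw [e1]
    refine mul_le_mul_of_nonneg_right ?_ (Real.exp_pos _).le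
    have := Real.add_one_le_exp (h0 / 2)
    linarith
  have hcN : |Real.log Nt - Real.log Dt| ≤ Real.exp (-(ε / 8 * L)) := by
    have e0 : |Real.log Nt - Real.log Dt| ≤
        |(Real.log Nt - Real.log Dt) + g * (Real.log W1 - Real.log W2)| +
          g * |Real.log W1 - Real.log W2| := by
      have : Real.log Nt - Real.log Dt =
          ((Real.log Nt - Real.log Dt) + g * (Real.log W1 - Real.log W2)) -
            g * (Real.log W1 - Real.log W2) := by ring
      calc |Real.log Nt - Real.log Dt| =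
          |((Real.log Nt - Real.log Dt) + g * (Real.log W1 - Real.log W2)) -
            g * (Real.log W1 - Real.log W2)| := by rw [← this]
        _ ≤ |(Real.log Nt - Real.log Dt) + g * (Real.log W1 - Real.log W2)| +
            |(g : ℝ) * (Real.log W1 - Real.log W2)| := abs_sub _ _
        _ = _ := by rw [abs_mul, Nat.abs_cast]
    have e1 : (g : ℝ) * |Real.log W1 - Real.log W2| ≤ Real.exp (-(3 * ε / 16 * L)) := by
      calc (g : ℝ) * |Real.log W1 - Real.log W2| ≤
          Real.exp (ε / 1000000 * L) * Real.exp (-(ε / 4 * L)) :=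
            mul_le_mul hgh hW (abs_nonneg _) (Real.exp_pos _).le
        _ = Real.exp (ε / 1000000 * L + -(ε / 4 * L)) := (Real.exp_add _ _).symm
        _ ≤ Real.exp (-(3 * ε / 16 * L)) := by
            refine Real.exp_le_exp.2 ?_
            linarith
    have e2 : 4 * Real.exp (-(3 / 4) * h0) ≤ Real.exp (-(3 * ε / 16 * L)) := by
      refine hexp4.trans (Real.exp_le_exp.2 ?_)
      linarith
    have e3 : 2 * Real.exp (-(3 * ε / 16 * L)) ≤ Real.exp (-(ε / 8 * L)) := by
      have e4 : Real.exp (-(ε / 8 * L)) = Real.exp (ε / 16 * L) * Real.exp (-(3 * ε / 16 * L)) := by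
        rw [← Real.exp_add]
        ring_nf
      rw [e4]
      refine mul_le_mul_of_nonneg_right ?_ (Real.exp_pos _).le
      have := Real.add_one_le_exp (ε / 16 * L)
      linarith
    linarith
  have hap : Pool.LH.ApR g 1 (ε / 8 * L) (h0 / 4) Nt Dt W1 W2 := by
    refine ⟨hNt, hDt, hW1, hW2, hcN, ?_⟩
    push_cast
    rw [one_mul]
    exact hrel.trans hexp4
  obtain ⟨U, hU⟩ : ∃ U : ℝ, U = 2 * (ε / (5000000 * Q)) * h0 + 8 * (ε / 20000000) * h0 / q :=
    ⟨_, rfl⟩
  rw [← hU] at bN bD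
  have hU0 : 0 ≤ U := by
    rw [hU]
    have : 0 ≤ h0 := by linarith
    positivity
  have hle : ∀ {N : ℕ} {B : ℝ}, 0 < N → Real.log N ≤ B → (N : ℝ) ≤ Real.exp B := by
    intro N B hN hB
    have hNr : (0 : ℝ) < N := by exact_mod_cast hN
    rw [← Real.exp_log hNr]
    exact Real.exp_le_exp.2 hB
  have hMg : M ≤ g := by
    have : (M : ℝ) ≤ g := by
      have : (0 : ℝ) ≤ g := Nat.cast_nonneg g
      linarith
    exact_mod_cast this
  have hg5 : 2 ≤ g := by
    have : (2 : ℝ) ≤ g := by linarith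
    exact_mod_cast this
  have hM5 : 1 ≤ M := by exact_mod_cast hM3
  have hBb : h0 / 4 ≤ ε / 8 * L * ((M : ℝ) * n) := by
    have e1 : (g : ℝ) / 2000 * (8000 * (q : ℝ) / ε) ≤ M * n :=
      mul_le_mul (by linarith) hn1 (by positivity) (by positivity)
    calc h0 / 4 = L * (G / q) * q / 4 := by
          rw [← hGL]
          field_simp
      _ ≤ L * (2 * g) * q / 4 := by gcongr
      _ = ε / 8 * L * ((g : ℝ) / 2000 * (8000 * (q : ℝ) / ε)) := by
          field_simp
          ring
      _ ≤ ε / 8 * L * ((M : ℝ) * n) := mul_le_mul_of_nonneg_left e1 (by positivity)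
  have hfin := hPZ g M n (ε / 8 * L) (h0 / 4) Nt Dt W1 W2 U (18 * q * L) hg5 hM5 hMg hn0 hap
    (Or.inr hne) (by linarith) (by linarith) hBb hU0 (by positivity) (hle hNt bN) (hle hDt bD)
    (hle hW1 bW1) (hle hW2 bW2)
  -- the four terms
  have hMG : (M : ℝ) ≤ G / q / 1000 := by linarith
  have hMn : (M : ℝ) * n ≤ 9 * G / ε := by
    calc (M : ℝ) * n ≤ (G / q / 1000) * (8003 * q / ε) :=
          mul_le_mul hMG hn3 (by positivity) (by positivity)
      _ = 8.003 * G / ε := by
          field_simp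
          ring
      _ ≤ 9 * G / ε := by
          refine div_le_div_of_nonneg_right ?_ hε.le
          linarith
  have hlog : Real.log (6 * g) ≤ 5 + ε / 1000000 * L := by
    have e1 : Real.log (g : ℝ) ≤ ε / 1000000 * L := by
      rw [← Real.log_exp (ε / 1000000 * L)]
      exact Real.log_le_log (by linarith) hgh
    rw [Real.log_mul (by norm_num) (by linarith)]
    have e2 : Real.log 6 ≤ 5 := by
      have := Real.log_le_sub_one_of_pos (x := (6 : ℝ)) (by norm_num)
      linarith
    linarith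
  have hlog0 : 0 ≤ Real.log (6 * g) := Real.log_nonneg (by linarith)
  have t1 : 100 * ((M : ℝ) * n) * Real.log (6 * g) ≤ h0 / 100 := by
    calc 100 * ((M : ℝ) * n) * Real.log (6 * g) ≤
        100 * (9 * G / ε) * (5 + ε / 1000000 * L) := by
          refine mul_le_mul (by linarith) hlog hlog0 (by positivity)
      _ = 4500 * G / ε + 900 / 1000000 * (G * L) := by
          field_simp
          ring
      _ ≤ 4500 * G * (L / 1000000) + 900 / 1000000 * (G * L) := by
          have : G / ε ≤ G * (L / 1000000) := by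
            rw [div_le_iff₀ hε]
            have : 1 ≤ L / 1000000 * ε := by
              rw [div_mul_eq_mul_div, le_div_iff₀ (by norm_num)]
              linarith
            have h5 := mul_le_mul_of_nonneg_left this hG0.le
            linarith
          have e5 : 4500 * G / ε = 4500 * (G / ε) := by ring
          rw [e5]
          linarith
      _ = 5400 / 1000000 * h0 := by
          rw [← hGL]
          ring
      _ ≤ h0 / 100 := by linarith
  have t2 : 4 * (n : ℝ) * U ≤ h0 / 25 := by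
    have e1 : U ≤ h0 / q * (ε * (8 / 10000000)) := by
      rw [hU]
      have e2 : 2 * (ε / (5000000 * Q)) * h0 ≤ h0 / q * (ε * (4 / 10000000)) := by
        have : ε / (5000000 * Q) ≤ ε / (5000000 * q) := by gcongr
        calc 2 * (ε / (5000000 * Q)) * h0 ≤ 2 * (ε / (5000000 * q)) * h0 := by
              have : 0 ≤ h0 := by linarith
              gcongr
          _ = h0 / q * (ε * (4 / 10000000)) := by
              field_simp
              ring
      have e3 : 8 * (ε / 20000000) * h0 / q = h0 / q * (ε * (4 / 10000000)) := by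
        field_simp
        ring
      rw [e3]
      linarith
    calc 4 * (n : ℝ) * U ≤ 4 * (8003 * q / ε) * (h0 / q * (ε * (8 / 10000000))) :=
          mul_le_mul (by linarith) e1 hU0 (by positivity)
      _ = 4 * 8003 * (8 / 10000000) * h0 := by
          field_simp
      _ ≤ h0 / 25 := by linarith
  have t3 : (M : ℝ) * (18 * q * L) ≤ h0 / 50 := by
    calc (M : ℝ) * (18 * q * L) ≤ (G / q / 1000) * (18 * q * L) :=
          mul_le_mul_of_nonneg_right hMG (by positivity)
      _ = 18 / 1000 * (G * L) := by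
          field_simp
      _ ≤ h0 / 50 := by
          rw [hGL]
          linarith
  have t4 : (M : ℝ) ≤ h0 / 1000 := by
    linarith
  linarith

end Pool.EXC.Rnx48
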