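import Pool.Agent.H48.EXC.RNXa
import Pool.Agent.H48.EXC.RNXb

/-!
# EXC, module RNX: few triples with one tiny coordinate and two heavy primes
-/

set_option autoImplicit false

namespace Pool.EXC

open Finset Pool.Agent.H98.ABCR Pool.SHA Pool.ABY Pool.VIO

namespace Rnx48

/-- The data of a triple. -/
structure Dat (ε X h0 : ℝ) (Q : ℕ) (j k : Fin 3) (v : ℕ × ℕ) (p p' q n1 n2 : ℕ) : Prop where
  tri : IsTri v
  mp : p ∈ (coord v j).primeFactors
  mp' : p' ∈ (coord v k).primeFactors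
  lp : Real.log p ≤ Real.log X
  lp' : Real.log p' ≤ Real.log X
  r : Real.log (coord v j) - ε / (5000000 * Q) * h0 ≤
    ((coord v j).factorization p : ℝ) * Real.log p
  r' : Real.log (coord v k) - ε / (5000000 * Q) * h0 ≤
    ((coord v k).factorization p' : ℝ) * Real.log p'
  l : |Real.log (coord v j) - Real.log (coord v k)| ≤ 2 * Real.exp (-(3 / 4) * h0)
  q1 : 1 ≤ q
  qQ : q ≤ Q
  n10 : 1 ≤ n1
  n1q : n1 ≤ 9 * q
  n2q : n2 ≤ 9 * q
  a : |(q : ℝ) * ((coord v j).factorization p / (h0 / Real.log X)) - n1| ≤ ε / 20000000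
  a' : |(q : ℝ) * ((coord v k).factorization p' / (h0 / Real.log X)) - n2| ≤ ε / 20000000

/-- rounding of the exponent -/
lemma round {θ G q n e g : ℝ} (hG : 0 < G) (hq : 1 ≤ q) (hn : 0 ≤ n) (hnq : n ≤ 9 * q)
    (h : |q * (e / G) - n| ≤ θ) (hg1 : g ≤ G / q) (hg2 : G / q < g + 1)
    (hbig : 9 * q ^ 2 ≤ θ * G) : |e - g * n| ≤ 2 * θ * G / q := by
  have hq0 : 0 < q := by linarith
  have e1 : e - g * n = (q * (e / G) - n) * (G / q) + (G / q - g) * n := by
    field_simp
    ring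
  rw [e1]
  have a1 : |(q * (e / G) - n) * (G / q)| ≤ θ * (G / q) := by
    rw [abs_mul, abs_of_pos (div_pos hG hq0)]
    exact mul_le_mul_of_nonneg_right h (by positivity)
  have a2 : |(G / q - g) * n| ≤ 9 * q := by
    rw [abs_mul, abs_of_nonneg hn, abs_of_nonneg (by linarith)]
    calc (G / q - g) * n ≤ 1 * (9 * q) := mul_le_mul (by linarith) hnq hn (by norm_num)
      _ = 9 * q := one_mul _
  have a3 : 9 * q ≤ θ * (G / q) := by
    rw [mul_div_assoc', le_div_iff₀ hq0]
    nlinarith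
  calc |(q * (e / G) - n) * (G / q) + (G / q - g) * n| ≤
      |(q * (e / G) - n) * (G / q)| + |(G / q - g) * n| := abs_add_le _ _
    _ ≤ θ * (G / q) + θ * (G / q) := by linarith
    _ = 2 * θ * G / q := by ring

/-- Two triples with the same numbers in the same box. -/
lemma two (hPZ : S_PZ1) (ε : ℝ) (hε : 0 < ε) (hε1 : ε ≤ 1) (Q : ℕ) (hQ : 1 ≤ Q)
    (X h0 : ℝ) (j k : Fin 3) (hjk : j ≠ k) (hL : 1000000 / ε ≤ Real.log X)
    (hκ : 10000 * Q * Real.log X ≤ h0) (hκ2 : 180000000 * (Q : ℝ) ^ 2 / ε * Real.log X ≤ h0)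
    (hup : h0 ≤ Real.exp (ε / 1000000 * Real.log X)) (v w : ℕ × ℕ) (p p' r r' q n1 n2 : ℕ)
    (hv : Dat ε X h0 Q j k v p p' q n1 n2) (hw : Dat ε X h0 Q j k w r r' q n1 n2) (hpr : p ≠ r)
    (hu : |(n1 * Real.log p - n2 * Real.log p') - (n1 * Real.log r - n2 * Real.log r')| ≤
      Real.exp (-(ε / 4 * Real.log X))) : False := by
  set L : ℝ := Real.log X with hLdef
  have hL0 : 0 < L := lt_of_lt_of_le (by positivity) hL
  obtain ⟨G, hG⟩ : ∃ G : ℝ, G = h0 / L := ⟨_, rfl⟩
  have hGL : G * L = h0 := by rw [hG]; field_simp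
  have hqr : (1 : ℝ) ≤ q := by exact_mod_cast hv.q1
  have hqQr : (q : ℝ) ≤ Q := by exact_mod_cast hv.qQ
  have hQr : (1 : ℝ) ≤ Q := by exact_mod_cast hQ
  have hG1 : 180000000 * (Q : ℝ) ^ 2 / ε ≤ G := by
    rw [hG, le_div_iff₀ hL0]
    exact hκ2
  have hG0 : 0 < G := lt_of_lt_of_le (by positivity) hG1
  have hbig : 9 * (q : ℝ) ^ 2 ≤ ε / 20000000 * G := by
    rw [div_le_iff₀ hε] at hG1
    have : (q : ℝ) ^ 2 ≤ (Q : ℝ) ^ 2 := by gcongr
    linarith
  obtain ⟨g, hg⟩ : ∃ g : ℕ, g = ⌊h0 / L / q⌋₊ := ⟨_, rfl⟩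
  have hg' : g = ⌊G / q⌋₊ := by rw [hg, hG]
  have hg1 : (g : ℝ) ≤ G / q := by
    rw [hg']
    exact Nat.floor_le (by positivity)
  have hg2 : G / q < g + 1 := by
    rw [hg']
    exact Nat.lt_floor_add_one _
  have hn1q : (n1 : ℝ) ≤ 9 * q := by exact_mod_cast hv.n1q
  have hn2q : (n2 : ℝ) ≤ 9 * q := by exact_mod_cast hv.n2q
  have main : ∀ (v : ℕ × ℕ) (p p' : ℕ), Dat ε X h0 Q j k v p p' q n1 n2 → ∃ N D : ℕ, 0 < N ∧ 0 < D ∧
      Real.log N ≤ ε / (5000000 * Q) * h0 + 4 * (ε / 20000000) * h0 / q ∧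
      Real.log D ≤ ε / (5000000 * Q) * h0 + 4 * (ε / 20000000) * h0 / q ∧
      Real.log N - Real.log D = (Real.log (coord v j) - Real.log (coord v k)) -
        g * (n1 * Real.log p - n2 * Real.log p') := by
    intro v p p' hv
    have hp := Nat.prime_of_mem_primeFactors hv.mp
    have hp' := Nat.prime_of_mem_primeFactors hv.mp'
    refine nd (coord v j) (coord v k) p p' ((coord v j).factorization p)
      ((coord v k).factorization p') g n1 n2 (coord_pos hv.tri j) (coord_pos hv.tri k) hp.pos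
      hp'.pos (Nat.ordProj_dvd _ _) (Nat.ordProj_dvd _ _) _ _ (by linarith [hv.r])
      (by linarith [hv.r']) ?_
    have a1 := hv.a
    have a2 := hv.a'
    rw [← hLdef, ← hG] at a1 a2
    have b1 := round hG0 hqr (Nat.cast_nonneg n1) hn1q a1 hg1 hg2 hbig
    have b2 := round hG0 hqr (Nat.cast_nonneg n2) hn2q a2 hg1 hg2 hbig
    have c1 : 0 ≤ Real.log p := Real.log_natCast_nonneg p
    have c2 : 0 ≤ Real.log p' := Real.log_natCast_nonneg p'
    have d0 : 0 ≤ 2 * (ε / 20000000) * G / q := by positivity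
    calc |((coord v j).factorization p : ℝ) - g * n1| * Real.log p +
        |((coord v k).factorization p' : ℝ) - g * n2| * Real.log p' ≤
        2 * (ε / 20000000) * G / q * L + 2 * (ε / 20000000) * G / q * L :=
          add_le_add (mul_le_mul b1 hv.lp c1 d0) (mul_le_mul b2 hv.lp' c2 d0)
      _ = 4 * (ε / 20000000) * (G * L) / q := by ring
      _ = 4 * (ε / 20000000) * h0 / q := by rw [hGL]
  obtain ⟨N1, D1, N1p, D1p, N1l, D1l, e1⟩ := main v p p' hv
  obtain ⟨N2, D2, N2p, D2p, N2l, D2l, e2⟩ := main w r r' hw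
  have hp := Nat.prime_of_mem_primeFactors hv.mp
  have hp' := Nat.prime_of_mem_primeFactors hv.mp'
  have hr := Nat.prime_of_mem_primeFactors hw.mp
  have hr' := Nat.prime_of_mem_primeFactors hw.mp'
  have hpR : (0 : ℝ) < p := by exact_mod_cast hp.pos
  have hpR' : (0 : ℝ) < p' := by exact_mod_cast hp'.pos
  have hrR : (0 : ℝ) < r := by exact_mod_cast hr.pos
  have hrR' : (0 : ℝ) < r' := by exact_mod_cast hr'.pos
  have hN1R : (0 : ℝ) < N1 := by exact_mod_cast N1p
  have hN2R : (0 : ℝ) < N2 := by exact_mod_cast N2p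
  have hD1R : (0 : ℝ) < D1 := by exact_mod_cast D1p
  have hD2R : (0 : ℝ) < D2 := by exact_mod_cast D2p
  have lNt : Real.log ((N1 * D2 : ℕ) : ℝ) = Real.log N1 + Real.log D2 := by
    push_cast
    exact Real.log_mul hN1R.ne' hD2R.ne'
  have lDt : Real.log ((D1 * N2 : ℕ) : ℝ) = Real.log D1 + Real.log N2 := by
    push_cast
    exact Real.log_mul hD1R.ne' hN2R.ne'
  have lW1 : Real.log ((p ^ n1 * r' ^ n2 : ℕ) : ℝ) = n1 * Real.log p + n2 * Real.log r' := by
    push_cast
    rw [Real.log_mul (by positivity) (by positivity), Real.log_pow, Real.log_pow]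
  have lW2 : Real.log ((r ^ n1 * p' ^ n2 : ℕ) : ℝ) = n1 * Real.log r + n2 * Real.log p' := by
    push_cast
    rw [Real.log_mul (by positivity) (by positivity), Real.log_pow, Real.log_pow]
  have hne : p ^ n1 * r' ^ n2 ≠ r ^ n1 * p' ^ n2 := by
    intro h
    have h1 : p ∣ r ^ n1 * p' ^ n2 := by
      rw [← h]
      exact Dvd.dvd.mul_right (dvd_pow_self p (by have := hv.n10; omega)) _
    rcases (Nat.Prime.dvd_mul hp).1 h1 with h2 | h2
    · exact hpr ((Nat.prime_dvd_prime_iff_eq hp hr).1 (hp.dvd_of_dvd_pow h2))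
    · have h3 := (Nat.prime_dvd_prime_iff_eq hp hp').1 (hp.dvd_of_dvd_pow h2)
      have h4 : p ∣ coord v j := Nat.dvd_of_mem_primeFactors hv.mp
      have h5 : p ∣ coord v k := by
        rw [h3]
        exact Nat.dvd_of_mem_primeFactors hv.mp'
      exact Nat.not_coprime_of_dvd_of_dvd hp.one_lt h4 h5 (coord_cop hv.tri hjk)
  have hb : ∀ {n : ℕ} {x : ℝ}, (n : ℝ) ≤ 9 * q → 0 ≤ x → x ≤ L → (n : ℝ) * x ≤ 9 * q * L := by
    intro n x hn hx hxL
    exact mul_le_mul hn hxL hx (by positivity)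
  refine num hPZ ε hε hε1 Q hQ L h0 q g (N1 * D2) (D1 * N2) (p ^ n1 * r' ^ n2) (r ^ n1 * p' ^ n2)
    hL hκ hup hv.q1 hv.qQ hg (by positivity) (by positivity)
    (Nat.mul_pos (pow_pos hp.pos _) (pow_pos hr'.pos _))
    (Nat.mul_pos (pow_pos hr.pos _) (pow_pos hp'.pos _)) hne ?_ ?_ ?_ ?_ ?_ ?_
  · rw [lNt]
    calc Real.log N1 + Real.log D2 ≤ _ := add_le_add N1l D2l
      _ = _ := by ring
  · rw [lDt]
    calc Real.log D1 + Real.log N2 ≤ _ := add_le_add D1l N2l
      _ = _ := by ring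
  · rw [lW1]
    have c1 := hb hn1q (Real.log_natCast_nonneg p) hv.lp
    have c2 := hb hn2q (Real.log_natCast_nonneg r') hw.lp'
    linarith
  · rw [lW2]
    have c1 := hb hn1q (Real.log_natCast_nonneg r) hw.lp
    have c2 := hb hn2q (Real.log_natCast_nonneg p') hv.lp'
    linarith
  · rw [lW1, lW2]
    have : (n1 : ℝ) * Real.log p + n2 * Real.log r' - (n1 * Real.log r + n2 * Real.log p') =
        (n1 * Real.log p - n2 * Real.log p') - (n1 * Real.log r - n2 * Real.log r') := by ring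
    rw [this]
    exact hu
  · rw [lNt, lDt, lW1, lW2]
    have : Real.log N1 + Real.log D2 - (Real.log D1 + Real.log N2) +
        g * ((n1 : ℝ) * Real.log p + n2 * Real.log r' - (n1 * Real.log r + n2 * Real.log p')) =
        (Real.log (coord v j) - Real.log (coord v k)) -
          (Real.log (coord w j) - Real.log (coord w k)) := by
      have f1 : Real.log N1 + Real.log D2 - (Real.log D1 + Real.log N2) =
          (Real.log N1 - Real.log D1) - (Real.log N2 - Real.log D2) := by ring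
      rw [f1, e1, e2]
      ring
    rw [this]
    calc _ ≤ |Real.log (coord v j) - Real.log (coord v k)| +
          |Real.log (coord w j) - Real.log (coord w k)| := abs_sub _ _
      _ ≤ 4 * Real.exp (-(3 / 4) * h0) := by linarith [hv.l, hw.l]

end Rnx48

open Rnx48

/-- RNX: few triples with one tiny coordinate and two heavy primes. -/
theorem rnx_thm (h1 : S_LPF) (h2 : S_DIR) (h3 : S_PZ1) : S_RNX := by
  classical
  intro ε hε hε1
  obtain ⟨lamF, κF, XF, hlamF, hlamF4, hκF, hXF, hfib⟩ := fibre h1 (ε / 8) (by positivity)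
  obtain ⟨Q, hQ, hdir⟩ := h2 2 (ε / 20000000) (by positivity) (by linarith)
  have hQr : (1 : ℝ) ≤ Q := by exact_mod_cast hQ
  obtain ⟨Kc, hKc⟩ : ∃ Kc : ℝ, Kc = ((Q : ℝ) + 1) * (9 * Q + 1) ^ 2 * (21 * Q) := ⟨_, rfl⟩
  have hKc0 : 0 < Kc := by rw [hKc]; positivity
  refine ⟨min lamF (ε / (5000000 * Q)), max κF (max (10000 * Q) (180000000 * (Q : ℝ) ^ 2 / ε)),
    max XF (Real.exp (max (1000000 / ε) (32 * Kc / ε ^ 2))), ε / 1000000, by positivity,
    (min_le_left _ _).trans hlamF4, hκF.trans (le_max_left _ _), hXF.trans (le_max_left _ _),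
    by positivity, ?_⟩
  intro X h0 i j k F hX hκ hup hij hik hjk hF
  have hX1 : XF ≤ X := (le_max_left _ _).trans hX
  have hX3 : 3 ≤ X := hXF.trans hX1
  have hX0 : 0 < X := by linarith
  have hLL : max (1000000 / ε) (32 * Kc / ε ^ 2) ≤ Real.log X := by
    rw [← Real.log_exp (max (1000000 / ε) (32 * Kc / ε ^ 2))]
    exact Real.log_le_log (Real.exp_pos _) ((le_max_right _ _).trans hX)
  have hL1 : 1000000 / ε ≤ Real.log X := (le_max_left _ _).trans hLL
  have hL2 : 32 * Kc / ε ^ 2 ≤ Real.log X := (le_max_right _ _).trans hLL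
  set L : ℝ := Real.log X with hLdef
  have hL6 : 1000000 ≤ L := by
    refine le_trans ?_ hL1
    rw [le_div_iff₀ hε]
    linarith
  have hL0 : 0 < L := by linarith
  have hκ1 : κF * L ≤ h0 := (mul_le_mul_of_nonneg_right (le_max_left _ _) hL0.le).trans hκ
  have hκ2 : 10000 * Q * L ≤ h0 :=
    (mul_le_mul_of_nonneg_right ((le_max_left _ _).trans (le_max_right _ _)) hL0.le).trans hκ
  have hκ3 : 180000000 * (Q : ℝ) ^ 2 / ε * L ≤ h0 :=
    (mul_le_mul_of_nonneg_right ((le_max_right _ _).trans (le_max_right _ _)) hL0.le).trans hκ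
  have hup' : h0 ≤ Real.exp (ε / 1000000 * L) := by
    refine hup.trans (le_of_eq ?_)
    rw [Real.rpow_def_of_pos hX0, mul_comm]
  have h8 : 8 ≤ h0 := by nlinarith
  obtain ⟨G, hG⟩ : ∃ G : ℝ, G = h0 / L := ⟨_, rfl⟩
  have hGL : G * L = h0 := by rw [hG]; field_simp
  have hG0 : 0 < G := by
    rw [hG]
    exact div_pos (by linarith) hL0
  have hlamF' : ∀ x : ℝ, x ≤ min lamF (ε / (5000000 * Q)) * h0 → x ≤ lamF * h0 := fun x hx =>
    hx.trans (mul_le_mul_of_nonneg_right (min_le_left _ _) (by linarith))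
  have hlam' : min lamF (ε / (5000000 * Q)) * h0 ≤ ε / (5000000 * Q) * h0 :=
    mul_le_mul_of_nonneg_right (min_le_right _ _) (by linarith)
  have hlam4 : min lamF (ε / (5000000 * Q)) * h0 ≤ 1 / 4 * h0 :=
    mul_le_mul_of_nonneg_right ((min_le_left _ _).trans hlamF4) (by linarith)
  have hlamFF : min lamF (ε / (5000000 * Q)) * h0 ≤ lamF * h0 :=
    mul_le_mul_of_nonneg_right (min_le_left _ _) (by linarith)
  have hp_ex : ∀ v ∈ F, ∃ p ∈ (coord v j).primeFactors, X ^ (1 / 4 : ℝ) < p ∧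
      Real.log (coord v j) - min lamF (ε / (5000000 * Q)) * h0 ≤
        ((coord v j).factorization p : ℝ) * Real.log p := fun v hv => (hF v hv).2.2.2.2.2.1
  have hp'_ex : ∀ v ∈ F, ∃ p ∈ (coord v k).primeFactors, X ^ (1 / 4 : ℝ) < p ∧
      Real.log (coord v k) - min lamF (ε / (5000000 * Q)) * h0 ≤
        ((coord v k).factorization p : ℝ) * Real.log p := fun v hv => (hF v hv).2.2.2.2.2.2
  choose! p hp using hp_ex
  choose! p' hp' using hp'_ex
  have hfb : ∀ v ∈ F, ((F.filter (fun w => p w = p v)).card : ℝ) ≤ X ^ (ε / 8) := by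
    intro v hv
    refine hfib X h0 i j k _ (p v) hX1 hκ1 h8 hij hik hjk ?_
    intro w hw
    rw [mem_filter] at hw
    obtain ⟨hw1, hw2⟩ := hw
    obtain ⟨a1, a2, a3, a4, a5, -, -⟩ := hF w hw1
    obtain ⟨b1, b2, b3⟩ := hp w hw1
    obtain ⟨c1, c2, c3⟩ := hp' w hw1
    refine ⟨a1, a2, a3, a4, hlamF' _ a5, ⟨?_, ?_⟩, p' w, c1, c2, by linarith⟩
    · rw [← hw2]; exact b1
    · rw [← hw2]; linarith
  have hfb' : ∀ v ∈ F, ((F.filter (fun w => p' w = p' v)).card : ℝ) ≤ X ^ (ε / 8) := by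
    intro v hv
    refine hfib X h0 i k j _ (p' v) hX1 hκ1 h8 hik hij hjk.symm ?_
    intro w hw
    rw [mem_filter] at hw
    obtain ⟨hw1, hw2⟩ := hw
    obtain ⟨a1, a2, a3, a4, a5, -, -⟩ := hF w hw1
    obtain ⟨b1, b2, b3⟩ := hp w hw1
    obtain ⟨c1, c2, c3⟩ := hp' w hw1
    refine ⟨a1, a2, a3, a4, hlamF' _ a5, ⟨?_, ?_⟩, p w, b1, b2, by linarith⟩
    · rw [← hw2]; exact c1
    · rw [← hw2]; linarith
  obtain ⟨F', hsub, hinj, hinj', hcard⟩ := maximal F p p' (X ^ (ε / 8)) hfb hfb'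
  -- the data
  have hdat : ∀ v ∈ F, ∃ q n1 n2 : ℕ, Dat ε X h0 Q j k v (p v) (p' v) q n1 n2 := by
    intro v hv
    obtain ⟨a1, a2, a3, a4, a5, -, -⟩ := hF v hv
    obtain ⟨b1, b2, b3⟩ := hp v hv
    obtain ⟨c1, c2, c3⟩ := hp' v hv
    have hs := small a1 h8 a3 hij hik hjk (a5.trans hlam4)
    have hpp := Nat.prime_of_mem_primeFactors b1
    have hpp' := Nat.prime_of_mem_primeFactors c1
    have hpR : (0 : ℝ) < p v := by exact_mod_cast hpp.pos
    have hpR' : (0 : ℝ) < p' v := by exact_mod_cast hpp'.pos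
    have l1 : Real.log (p v) ≤ L := Real.log_le_log hpR (prime_le a1 a2 b1)
    have l1' : Real.log (p' v) ≤ L := Real.log_le_log hpR' (prime_le a1 a2 c1)
    have l2 : L / 4 ≤ Real.log (p v) := by
      have h5 := Real.log_le_log (by positivity) b2.le
      rw [Real.log_rpow hX0] at h5
      linarith
    have l2' : L / 4 ≤ Real.log (p' v) := by
      have h5 := Real.log_le_log (by positivity) c2.le
      rw [Real.log_rpow hX0] at h5
      linarith
    -- upper bounds of the exponents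
    have up : ∀ {m r : ℕ}, 0 < m → r.Prime → L / 4 ≤ Real.log r → Real.log m ≤ hh v →
        (m.factorization r : ℝ) ≤ 8 * G := by
      intro m r hm hr hl hlm
      have e1 : (m.factorization r : ℝ) * Real.log r ≤ Real.log m := by
        rw [← Real.log_pow]
        have hd : r ^ m.factorization r ≤ m := Nat.le_of_dvd hm (Nat.ordProj_dvd _ _)
        have hrR : (0 : ℝ) < r := by exact_mod_cast hr.pos
        exact Real.log_le_log (by positivity) (by exact_mod_cast hd)
      have e2 : (m.factorization r : ℝ) * (L / 4) ≤ 2 * h0 :=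
        (mul_le_mul_of_nonneg_left hl (Nat.cast_nonneg _)).trans (e1.trans (hlm.trans a4))
      rw [hG]
      rw [mul_div_assoc', le_div_iff₀ hL0]
      linarith
    have ue := up (coord_pos a1 j) hpp l2 (log_coord_le a1 j)
    have uf := up (coord_pos a1 k) hpp' l2' (log_coord_le a1 k)
    have le : G / 2 ≤ ((coord v j).factorization (p v) : ℝ) := by
      have hlog2 : Real.log 2 < 1 := by
        have := Real.log_two_lt_d9
        linarith
      have e1 : h0 / 2 ≤ ((coord v j).factorization (p v) : ℝ) * Real.log (p v) := by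
        have := hs.1
        linarith
      have e2 : h0 / 2 ≤ ((coord v j).factorization (p v) : ℝ) * L :=
        e1.trans (mul_le_mul_of_nonneg_left l1 (Nat.cast_nonneg _))
      rw [← hGL] at e2
      have e3 : G / 2 * L ≤ ((coord v j).factorization (p v) : ℝ) * L := by linarith
      exact le_of_mul_le_mul_right e3 hL0
    obtain ⟨q, q1, q2, hqq⟩ := hdir {0, 1} (fun t => if t = 0 then
      ((coord v j).factorization (p v) : ℝ) / G else ((coord v k).factorization (p' v) : ℝ) / G)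
      (by simp) (by
        intro t _
        split_ifs <;> positivity)
    obtain ⟨n1, hn1⟩ := hqq 0 (by simp)
    obtain ⟨n2, hn2⟩ := hqq 1 (by simp)
    simp only [if_true, one_ne_zero, if_false] at hn1 hn2
    have hqr : (1 : ℝ) ≤ q := by exact_mod_cast q1
    have hθ : ε / 20000000 ≤ 1 / 4 := by linarith
    rw [abs_le] at hn1 hn2
    have ue' : ((coord v j).factorization (p v) : ℝ) / G ≤ 8 := by
      rw [div_le_iff₀ hG0]
      exact ue
    have uf' : ((coord v k).factorization (p' v) : ℝ) / G ≤ 8 := by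
      rw [div_le_iff₀ hG0]
      exact uf
    have le' : 1 / 2 ≤ ((coord v j).factorization (p v) : ℝ) / G := by
      rw [le_div_iff₀ hG0]
      linarith
    have g1 : (q : ℝ) * (((coord v j).factorization (p v) : ℝ) / G) ≤ q * 8 :=
      mul_le_mul_of_nonneg_left ue' (by linarith)
    have g2 : (q : ℝ) * (((coord v k).factorization (p' v) : ℝ) / G) ≤ q * 8 :=
      mul_le_mul_of_nonneg_left uf' (by linarith)
    have g3 : (q : ℝ) * (1 / 2) ≤ (q : ℝ) * (((coord v j).factorization (p v) : ℝ) / G) :=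
      mul_le_mul_of_nonneg_left le' (by linarith)
    refine ⟨q, n1, n2, a1, b1, c1, l1, l1', by linarith, by linarith, hs.2.2, q1, q2, ?_, ?_, ?_,
      ?_, ?_⟩
    · have : (0 : ℝ) < n1 := by linarith [hn1.1, hn1.2]
      have : 0 < n1 := by exact_mod_cast this
      exact this
    · have : (n1 : ℝ) ≤ 9 * q := by linarith [hn1.1, hn1.2]
      exact_mod_cast this
    · have : (n2 : ℝ) ≤ 9 * q := by linarith [hn2.1, hn2.2]
      exact_mod_cast this
    · rw [← hLdef, ← hG]
      exact abs_le.2 hn1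
    · rw [← hLdef, ← hG]
      exact abs_le.2 hn2
  choose! q n1 n2 hD using hdat
  -- the pigeonhole
  obtain ⟨E, hE⟩ : ∃ E : ℝ, E = Real.exp (ε / 4 * L) := ⟨_, rfl⟩
  have hE0 : 0 < E := by rw [hE]; exact Real.exp_pos _
  have hE1 : 1 ≤ E := by
    rw [hE]
    exact Real.one_le_exp (by positivity)
  have hXε : X ^ (ε / 2) = E * E := by
    rw [hE, Real.rpow_def_of_pos hX0, ← Real.exp_add, ← hLdef]
    ring_nf
  have hF' : (F'.card : ℝ) ≤ X ^ (ε / 2) := by
    by_contra hcon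
    push Not at hcon
    set u : ℕ × ℕ → ℝ := fun v => n1 v * Real.log (p v) - n2 v * Real.log (p' v) with hu
    obtain ⟨A, hA⟩ : ∃ A : ℕ, A = ⌈9 * (Q : ℝ) * L * E⌉₊ := ⟨_, rfl⟩
    have hA1 : 9 * (Q : ℝ) * L * E ≤ A := by rw [hA]; exact Nat.le_ceil _
    have hA2 : (A : ℝ) ≤ 9 * Q * L * E + 1 := by
      rw [hA]
      exact (Nat.ceil_lt_add_one (by positivity)).le
    have huA : ∀ v ∈ F, |u v * E| ≤ A := by
      intro v hv
      have hv' := hD v hv
      refine le_trans ?_ hA1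
      rw [abs_mul, abs_of_pos hE0]
      refine mul_le_mul_of_nonneg_right ?_ hE0.le
      have c1 : (n1 v : ℝ) * Real.log (p v) ≤ 9 * Q * L := by
        have : (n1 v : ℝ) ≤ 9 * Q := by
          have h5 : n1 v ≤ 9 * Q := hv'.n1q.trans (Nat.mul_le_mul_left 9 hv'.qQ)
          exact_mod_cast h5
        exact mul_le_mul this hv'.lp (Real.log_natCast_nonneg _) (by positivity)
      have c2 : (n2 v : ℝ) * Real.log (p' v) ≤ 9 * Q * L := by
        have : (n2 v : ℝ) ≤ 9 * Q := by
          have h5 : n2 v ≤ 9 * Q := hv'.n2q.trans (Nat.mul_le_mul_left 9 hv'.qQ)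
          exact_mod_cast h5
        exact mul_le_mul this hv'.lp' (Real.log_natCast_nonneg _) (by positivity)
      have c3 : 0 ≤ (n1 v : ℝ) * Real.log (p v) :=
        mul_nonneg (Nat.cast_nonneg _) (Real.log_natCast_nonneg _)
      have c4 : 0 ≤ (n2 v : ℝ) * Real.log (p' v) :=
        mul_nonneg (Nat.cast_nonneg _) (Real.log_natCast_nonneg _)
      rw [abs_le]
      constructor <;> simp only [hu] <;> linarith
    set t : Finset (ℕ × ℕ × ℕ × ℤ) := range (Q + 1) ×ˢ range (9 * Q + 1) ×ˢ range (9 * Q + 1) ×ˢ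
      Icc (-(A : ℤ)) A with ht
    have hmaps : ∀ v ∈ F', (q v, n1 v, n2 v, ⌊u v * E⌋) ∈ t := by
      intro v hv
      have hv' := hD v (hsub hv)
      have hu' := abs_le.1 (huA v (hsub hv))
      have c1 : n1 v ≤ 9 * Q := hv'.n1q.trans (Nat.mul_le_mul_left 9 hv'.qQ)
      have c2 : n2 v ≤ 9 * Q := hv'.n2q.trans (Nat.mul_le_mul_left 9 hv'.qQ)
      rw [ht, mem_product, mem_product, mem_product, mem_range, mem_range, mem_range, mem_Icc]
      refine ⟨Nat.lt_succ_of_le hv'.qQ, Nat.lt_succ_of_le c1, Nat.lt_succ_of_le c2, ?_, ?_⟩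
      · rw [Int.le_floor]
        push_cast
        exact hu'.1
      · have : (⌊u v * E⌋ : ℝ) ≤ A := (Int.floor_le _).trans hu'.2
        exact_mod_cast this
    have htc : (t.card : ℝ) ≤ Kc * L * E := by
      rw [ht, card_product, card_product, card_product, card_range, card_range, Int.card_Icc]
      have e1 : (((A : ℤ) + 1 - -(A : ℤ)).toNat : ℝ) = 2 * A + 1 := by
        have : ((A : ℤ) + 1 - -(A : ℤ)).toNat = 2 * A + 1 := by omega
        rw [this]
        push_cast
        ring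
      push_cast
      rw [e1]
      have e2 : 2 * (A : ℝ) + 1 ≤ 21 * Q * L * E := by
        have e3 : 1 ≤ Q * L * E := by
          have : 1 ≤ L * E := by nlinarith
          nlinarith
        nlinarith
      calc ((Q : ℝ) + 1) * ((9 * Q + 1) * ((9 * Q + 1) * (2 * A + 1))) ≤
          ((Q : ℝ) + 1) * ((9 * Q + 1) * ((9 * Q + 1) * (21 * Q * L * E))) := by gcongr
        _ = Kc * L * E := by
            rw [hKc]
            ring
    have hlt : t.card < F'.card := by
      have e1 : Kc * L ≤ E := by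
        have e2 := Real.quadratic_le_exp_of_nonneg (x := ε / 4 * L) (by positivity)
        rw [← hE] at e2
        have e3 : Kc * L ≤ (ε / 4 * L) ^ 2 / 2 := by
          rw [div_le_iff₀ (by positivity)] at hL2
          have : (ε / 4 * L) ^ 2 / 2 = L * ε ^ 2 * L / 32 := by ring
          rw [this]
          nlinarith
        have e4 : 0 ≤ ε / 4 * L := by positivity
        linarith
      have e5 : (t.card : ℝ) < F'.card := by
        calc (t.card : ℝ) ≤ Kc * L * E := htc
          _ ≤ E * E := mul_le_mul_of_nonneg_right e1 hE0.le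
          _ = X ^ (ε / 2) := hXε.symm
          _ < F'.card := hcon
      exact_mod_cast e5
    obtain ⟨v, hv, w, hw, hvw, heq⟩ := exists_ne_map_eq_of_card_lt_of_maps_to hlt hmaps
    simp only [Prod.mk.injEq] at heq
    obtain ⟨f1, f2, f3, f4⟩ := heq
    have hDv := hD v (hsub hv)
    have hDw := hD w (hsub hw)
    rw [← f1, ← f2, ← f3] at hDw
    refine two h3 ε hε hε1 Q hQ X h0 j k hjk hL1 hκ2 hκ3 hup' v w (p v) (p' v) (p w) (p' w) (q v)
      (n1 v) (n2 v) hDv hDw (fun h => hvw (hinj hv hw h)) ?_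
    have g1 := Int.abs_sub_lt_one_of_floor_eq_floor f4
    have g2 : u v * E - u w * E = (u v - u w) * E := by ring
    rw [g2, abs_mul, abs_of_pos hE0] at g1
    have g3 : |u v - u w| ≤ Real.exp (-(ε / 4 * L)) := by
      rw [Real.exp_neg, ← hE, ← one_div, le_div_iff₀ hE0]
      exact g1.le
    simp only [hu] at g3
    rw [← f2, ← f3] at g3
    exact g3
  -- the end
  have hX8 : 0 < X ^ (ε / 8) := Real.rpow_pos_of_pos hX0 _
  have hfin : 2 * X ^ (ε / 8) * X ^ (ε / 2) ≤ X ^ ε := by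
    have e1 : X ^ ε = X ^ (3 * ε / 8) * (X ^ (ε / 8) * X ^ (ε / 2)) := by
      rw [← Real.rpow_add hX0, ← Real.rpow_add hX0]
      ring_nf
    have e2 : 2 ≤ X ^ (3 * ε / 8) := by
      rw [Real.rpow_def_of_pos hX0, ← hLdef]
      have e3 := Real.add_one_le_exp (L * (3 * ε / 8))
      have e4 : 1000000 ≤ L * ε := by
        rw [div_le_iff₀ hε] at hL1
        exact hL1
      linarith
    rw [e1, mul_assoc]
    exact mul_le_mul_of_nonneg_right e2 (by positivity)
  calc (F.card : ℝ) ≤ 2 * X ^ (ε / 8) * F'.card := hcard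
    _ ≤ 2 * X ^ (ε / 8) * X ^ (ε / 2) := mul_le_mul_of_nonneg_left hF' (by positivity)
    _ ≤ X ^ ε := hfin

end Pool.EXC
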