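import Pool.Agent.H46.EXC.Stmts

/-!
# EXC, module RNX, part 1: coordinates, the fibres of the two heavy primes, a maximal subfamily
-/

set_option autoImplicit false

namespace Pool.EXC.Rnx48

open Finset Pool.Agent.H98.ABCR Pool.SHA Pool.ABY Pool.VIO

lemma log_eq {n : ℕ} : Real.log n = ∑ q ∈ n.primeFactors, (n.factorization q : ℝ) * Real.log q := by
  rw [Real.log_nat_eq_sum_factorization, Finsupp.sum, Nat.support_factorization]

lemma coord_pos {v : ℕ × ℕ} (hv : IsTri v) (s : Fin 3) : 0 < coord v s := by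
  obtain ⟨ha, hb, _⟩ := hv
  fin_cases s
  · exact ha
  · exact hb
  · exact Nat.add_pos_left ha _

lemma coord_cop {v : ℕ × ℕ} (hv : IsTri v) {s t : Fin 3} (hst : s ≠ t) :
    (coord v s).Coprime (coord v t) := by
  obtain ⟨_, _, hc⟩ := hv
  have h1 : v.1.Coprime (v.1 + v.2) := by simpa using hc
  have h2 : v.2.Coprime (v.1 + v.2) := by simpa using hc.symm
  fin_cases s <;> fin_cases t <;> first
    | exact absurd rfl hst
    | exact hc
    | exact hc.symm
    | exact h1
    | exact h2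
    | exact h1.symm
    | exact h2.symm

lemma coord_dvd_nn (v : ℕ × ℕ) (s : Fin 3) : coord v s ∣ nn v := by
  unfold nn
  fin_cases s
  · exact Dvd.dvd.mul_right (Dvd.intro _ rfl) _
  · exact Dvd.dvd.mul_right (Dvd.intro_left _ rfl) _
  · exact Dvd.intro_left _ rfl

lemma coord_le (v : ℕ × ℕ) (s : Fin 3) : coord v s ≤ v.1 + v.2 := by
  fin_cases s
  · exact Nat.le_add_right _ _
  · exact Nat.le_add_left _ _
  · exact le_rfl

lemma log_coord_le {v : ℕ × ℕ} (hv : IsTri v) (s : Fin 3) : Real.log (coord v s) ≤ hh v := by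
  unfold hh
  exact Real.log_le_log (by exact_mod_cast coord_pos hv s) (by exact_mod_cast coord_le v s)

/-- a prime of a coordinate is at most the radical -/
lemma prime_le {v : ℕ × ℕ} (hv : IsTri v) {X : ℝ} (hR : (RR v : ℝ) ≤ X) {s : Fin 3} {p : ℕ}
    (hp : p ∈ (coord v s).primeFactors) : (p : ℝ) ≤ X := by
  have hpr := Nat.prime_of_mem_primeFactors hp
  have hd : p ∣ nn v := (Nat.dvd_of_mem_primeFactors hp).trans (coord_dvd_nn v s)
  have hn : nn v ≠ 0 := by
    obtain ⟨ha, hb, _⟩ := hv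
    unfold nn
    positivity
  have hmem : p ∈ (nn v).primeFactors := Nat.mem_primeFactors.2 ⟨hpr, hd, hn⟩
  have h1 : p ∣ RR v := by
    unfold RR rad
    exact Finset.dvd_prod_of_mem _ hmem
  have h2 : 0 < RR v := by
    unfold RR rad
    exact Finset.prod_pos fun q hq => (Nat.prime_of_mem_primeFactors hq).pos
  have h3 : p ≤ RR v := Nat.le_of_dvd h2 h1
  calc (p : ℝ) ≤ RR v := by exact_mod_cast h3
    _ ≤ X := hR

/-- The archimedean part of the argument: a tiny coordinate. -/
lemma small_aux {a b : ℕ} (ha : 0 < a) (hb : 0 < b) {h0 : ℝ} (h8 : 8 ≤ h0)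
    (h1 : h0 ≤ Real.log ((a + b : ℕ) : ℝ)) (h2 : Real.log a ≤ 1 / 4 * h0) :
    Real.log ((a + b : ℕ) : ℝ) - Real.log 2 ≤ Real.log b ∧
    |Real.log ((a + b : ℕ) : ℝ) - Real.log b| ≤ 2 * Real.exp (-(3 / 4) * h0) := by
  have har : (0 : ℝ) < a := by exact_mod_cast ha
  have hbr : (0 : ℝ) < b := by exact_mod_cast hb
  have hcr : (0 : ℝ) < ((a + b : ℕ) : ℝ) := by push_cast; positivity
  have hc : Real.exp h0 ≤ ((a + b : ℕ) : ℝ) := by
    rw [← Real.exp_log hcr]
    exact Real.exp_le_exp.2 h1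
  have ha' : (a : ℝ) ≤ Real.exp (1 / 4 * h0) := by
    rw [← Real.exp_log har]
    exact Real.exp_le_exp.2 h2
  have hE : 2 * Real.exp (1 / 4 * h0) ≤ Real.exp h0 := by
    have e1 : Real.exp h0 = Real.exp (3 / 4 * h0) * Real.exp (1 / 4 * h0) := by
      rw [← Real.exp_add]
      ring_nf
    rw [e1]
    refine mul_le_mul_of_nonneg_right ?_ (Real.exp_pos _).le
    have := Real.add_one_le_exp (3 / 4 * h0)
    linarith
  have hcb : ((a + b : ℕ) : ℝ) = a + b := by push_cast; ring
  have hb2 : ((a + b : ℕ) : ℝ) / 2 ≤ b := by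
    rw [hcb] at hc ⊢
    linarith
  constructor
  · rw [← Real.log_div hcr.ne' (by norm_num)]
    exact Real.log_le_log (by positivity) hb2
  · rw [← Real.log_div hcr.ne' hbr.ne', abs_of_nonneg (Real.log_nonneg (by
      rw [hcb, le_div_iff₀ hbr]
      linarith))]
    have h3 : ((a + b : ℕ) : ℝ) / b = 1 + a / b := by
      rw [hcb]
      field_simp
      ring
    rw [h3]
    have h4 : Real.log (1 + a / b) ≤ a / b := by
      have := Real.log_le_sub_one_of_pos (x := 1 + (a : ℝ) / b) (by positivity)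
      linarith
    refine h4.trans ?_
    rw [div_le_iff₀ hbr]
    have h5 : Real.exp (1 / 4 * h0) = Real.exp (-(3 / 4) * h0) * Real.exp h0 := by
      rw [← Real.exp_add]
      ring_nf
    have h6 : 0 < Real.exp (-(3 / 4) * h0) := Real.exp_pos _
    calc (a : ℝ) ≤ Real.exp (1 / 4 * h0) := ha'
      _ = Real.exp (-(3 / 4) * h0) * Real.exp h0 := h5
      _ ≤ Real.exp (-(3 / 4) * h0) * (2 * b) := by
          refine mul_le_mul_of_nonneg_left ?_ h6.le
          linarith
      _ = 2 * Real.exp (-(3 / 4) * h0) * b := by ring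

lemma fin_a : ∀ i j : Fin 3, i ≠ j → i ≠ 2 → j ≠ 2 → (i = 0 ∧ j = 1) ∨ (i = 1 ∧ j = 0) := by
  decide

lemma fin_b (i j k : Fin 3) (h1 : i ≠ j) (h2 : i ≠ k) (h3 : j ≠ k) (h4 : i ≠ 2) (h5 : j ≠ 2) :
    k = 2 := by
  fin_cases i <;> fin_cases j <;> fin_cases k <;> simp_all

lemma fin_c : ∀ i j k : Fin 3, i ≠ j → i ≠ k → j ≠ k →
    (univ.erase j : Finset (Fin 3)) = {i, k} := by decide

/-- If the coordinate `i` is tiny then the two others are nearly equal. -/
lemma small {v : ℕ × ℕ} (hv : IsTri v) {h0 : ℝ} (h8 : 8 ≤ h0) (h1 : h0 ≤ hh v) {i j k : Fin 3}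
    (hij : i ≠ j) (hik : i ≠ k) (hjk : j ≠ k) (h2 : Real.log (coord v i) ≤ 1 / 4 * h0) :
    hh v - Real.log 2 ≤ Real.log (coord v j) ∧ hh v - Real.log 2 ≤ Real.log (coord v k) ∧
    |Real.log (coord v j) - Real.log (coord v k)| ≤ 2 * Real.exp (-(3 / 4) * h0) := by
  have hl2 : 0 < Real.log 2 := Real.log_pos (by norm_num)
  have key : ∀ i j : Fin 3, i ≠ j → i ≠ 2 → j ≠ 2 → Real.log (coord v i) ≤ 1 / 4 * h0 →
      hh v - Real.log 2 ≤ Real.log (coord v j) ∧
      |hh v - Real.log (coord v j)| ≤ 2 * Real.exp (-(3 / 4) * h0) := by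
    intro i j hij hi hj hl
    obtain ⟨ha, hb, _⟩ := hv
    have hij' := fin_a i j hij hi hj
    rcases hij' with ⟨rfl, rfl⟩ | ⟨rfl, rfl⟩
    · exact small_aux ha hb h8 h1 hl
    · have h3 := small_aux (a := v.2) (b := v.1) hb ha h8 (by rw [add_comm]; exact h1) hl
      rw [add_comm v.2 v.1] at h3
      exact h3
  have hi2 : i ≠ 2 := by
    rintro rfl
    have : Real.log (coord v 2) = hh v := rfl
    linarith
  have h2c : Real.log (coord v 2) = hh v := rfl
  by_cases hj : j = 2
  · subst hj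
    have hk : k ≠ 2 := fun h => hjk h.symm
    obtain ⟨a1, a2⟩ := key i k hik hi2 hk h2
    rw [h2c]
    exact ⟨by linarith, a1, a2⟩
  · have hk : k = 2 := fin_b i j k hij hik hjk hi2 hj
    subst hk
    obtain ⟨a1, a2⟩ := key i j hij hi2 hj h2
    rw [h2c]
    refine ⟨a1, by linarith, ?_⟩
    rw [abs_sub_comm]
    exact a2

/-- The fibres of a heavy prime, from LPF. -/
lemma fibre (hL : S_LPF) (ε : ℝ) (hε : 0 < ε) : ∃ lam κ0 X0 : ℝ, 0 < lam ∧ lam ≤ 1 / 4 ∧
    1 ≤ κ0 ∧ 3 ≤ X0 ∧ ∀ (X h0 : ℝ) (i j k : Fin 3) (F : Finset (ℕ × ℕ)) (P : ℕ), X0 ≤ X →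
    κ0 * Real.log X ≤ h0 → 8 ≤ h0 → i ≠ j → i ≠ k → j ≠ k →
    (∀ v ∈ F, IsTri v ∧ (RR v : ℝ) ≤ X ∧ h0 ≤ hh v ∧ hh v ≤ 2 * h0 ∧
      Real.log (coord v i) ≤ lam * h0 ∧
      (P ∈ (coord v j).primeFactors ∧
        Real.log (coord v j) - lam * h0 ≤ ((coord v j).factorization P : ℝ) * Real.log P) ∧
      ∃ p ∈ (coord v k).primeFactors, X ^ (1 / 4 : ℝ) < p ∧
        Real.log (coord v k) - lam * h0 ≤ ((coord v k).factorization p : ℝ) * Real.log p) →
    (F.card : ℝ) ≤ X ^ ε := by
  obtain ⟨lam1, κ1, X1, hlam1, hκ1, hX1, h⟩ := hL (1 / 2) (1 / 4) ε (by norm_num) (by norm_num)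
    (by norm_num) (by norm_num) hε
  refine ⟨min (1 / 100) (lam1 / 2), κ1, X1, by positivity, ?_, hκ1, hX1, ?_⟩
  · exact (min_le_left _ _).trans (by norm_num)
  intro X h0 i j k F P hX hκ h8 hij hik hjk hF
  set lam : ℝ := min (1 / 100) (lam1 / 2) with hlam
  have hl1 : lam ≤ 1 / 100 := min_le_left _ _
  have hl2 : lam ≤ lam1 / 2 := min_le_right _ _
  have hl0 : 0 < lam := by positivity
  refine h X h0 {P} j F hX hκ ?_
  intro v hv
  obtain ⟨a1, a2, a3, a4, a5, ⟨a6, a7⟩, p, b1, b2, b3⟩ := hF v hv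
  have hs := small a1 h8 a3 hij hik hjk (a5.trans (by nlinarith))
  have hlog2 : Real.log 2 < 1 := by
    have := Real.log_two_lt_d9
    linarith
  refine ⟨a1, a2, a3, a4, ?_, ?_, ?_⟩
  · intro q hq
    rw [mem_singleton] at hq
    subst hq
    refine Nat.mem_primeFactors.2 ⟨Nat.prime_of_mem_primeFactors a6,
      (Nat.dvd_of_mem_primeFactors a6).trans (coord_dvd_nn v j), ?_⟩
    obtain ⟨ha, hb, _⟩ := a1
    unfold nn
    positivity
  · unfold kl
    rw [sum_singleton]
    refine le_trans ?_ a7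
    have := hs.1
    nlinarith
  · have hki : k ∈ univ.erase j := mem_erase.2 ⟨hjk.symm, mem_univ _⟩
    have hset := fin_c i j k hij hik hjk
    unfold lig
    rw [hset, sum_pair hik]
    have c1 : ∑ q ∈ (coord v i).primeFactors.filter
        (fun q => q ∉ ({P} : Finset ℕ) ∧ (q : ℝ) ≤ X ^ (1 / 4 : ℝ)),
        ((coord v i).factorization q : ℝ) * Real.log q ≤ lam * h0 := by
      refine le_trans ?_ a5
      rw [log_eq]
      refine sum_le_sum_of_subset_of_nonneg (filter_subset _ _) fun q _ _ => ?_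
      positivity
    have c2 : ∑ q ∈ (coord v k).primeFactors.filter
        (fun q => q ∉ ({P} : Finset ℕ) ∧ (q : ℝ) ≤ X ^ (1 / 4 : ℝ)),
        ((coord v k).factorization q : ℝ) * Real.log q ≤ lam * h0 := by
      have d1 : ∑ q ∈ (coord v k).primeFactors.filter
          (fun q => q ∉ ({P} : Finset ℕ) ∧ (q : ℝ) ≤ X ^ (1 / 4 : ℝ)),
          ((coord v k).factorization q : ℝ) * Real.log q ≤
          ∑ q ∈ (coord v k).primeFactors.erase p,
            ((coord v k).factorization q : ℝ) * Real.log q := by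
        refine sum_le_sum_of_subset_of_nonneg ?_ fun q _ _ => ?_
        · intro q hq
          rw [mem_filter] at hq
          rw [mem_erase]
          refine ⟨?_, hq.1⟩
          rintro rfl
          exact absurd hq.2.2 (not_le.2 b2)
        · positivity
      have d2 := sum_erase_add (coord v k).primeFactors
        (fun q => ((coord v k).factorization q : ℝ) * Real.log q) b1
      rw [← log_eq] at d2
      linarith
    calc _ ≤ lam * h0 + lam * h0 := add_le_add c1 c2
      _ = 2 * lam * h0 := by ring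
      _ ≤ lam1 * h0 := by
          refine mul_le_mul_of_nonneg_right (by linarith) (by linarith)

/-- A maximal subfamily on which two functions are injective. -/
lemma maximal {α : Type} [DecidableEq α] (F : Finset α) (p p' : α → ℕ) (Bd : ℝ)
    (h : ∀ v ∈ F, ((F.filter (fun w => p w = p v)).card : ℝ) ≤ Bd)
    (h' : ∀ v ∈ F, ((F.filter (fun w => p' w = p' v)).card : ℝ) ≤ Bd) :
    ∃ F' ⊆ F, Set.InjOn p F' ∧ Set.InjOn p' F' ∧ (F.card : ℝ) ≤ 2 * Bd * F'.card := by
  classical
  have hne : (F.powerset.filter (fun S : Finset α => Set.InjOn p S ∧ Set.InjOn p' S)).Nonempty :=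
    ⟨∅, by simp⟩
  obtain ⟨F', hF', hmax⟩ := Finset.exists_max_image _ (fun S : Finset α => S.card) hne
  rw [mem_filter, mem_powerset] at hF'
  obtain ⟨hsub, hi, hi'⟩ := hF'
  refine ⟨F', hsub, hi, hi', ?_⟩
  have hcov : F ⊆ F'.biUnion (fun v => F.filter (fun w => p w = p v) ∪
      F.filter (fun w => p' w = p' v)) := by
    intro w hw
    rw [mem_biUnion]
    by_contra hcon
    push Not at hcon
    have hw' : ∀ v ∈ F', p w ≠ p v ∧ p' w ≠ p' v := by
      intro v hv
      have := hcon v hv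
      rw [mem_union, mem_filter, mem_filter] at this
      push Not at this
      exact ⟨this.1 hw, this.2 hw⟩
    have hwF : w ∉ F' := fun hmem => (hw' w hmem).1 rfl
    have hins : insert w F' ∈ F.powerset.filter
        (fun S : Finset α => Set.InjOn p S ∧ Set.InjOn p' S) := by
      rw [mem_filter, mem_powerset]
      refine ⟨insert_subset hw hsub, ?_, ?_⟩
      · rw [coe_insert, Set.injOn_insert (by exact_mod_cast hwF)]
        refine ⟨hi, ?_⟩
        rintro ⟨v, hv, he⟩
        exact (hw' v hv).1 he.symm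
      · rw [coe_insert, Set.injOn_insert (by exact_mod_cast hwF)]
        refine ⟨hi', ?_⟩
        rintro ⟨v, hv, he⟩
        exact (hw' v hv).2 he.symm
    have := hmax _ hins
    rw [card_insert_of_notMem hwF] at this
    omega
  have h1 : (F.card : ℝ) ≤ ∑ v ∈ F', (2 * Bd) := by
    calc (F.card : ℝ) ≤ ((F'.biUnion (fun v => F.filter (fun w => p w = p v) ∪
          F.filter (fun w => p' w = p' v))).card : ℝ) := by exact_mod_cast card_le_card hcov
      _ ≤ ∑ v ∈ F', (((F.filter (fun w => p w = p v) ∪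
          F.filter (fun w => p' w = p' v)).card : ℕ) : ℝ) := by
          exact_mod_cast card_biUnion_le
      _ ≤ ∑ v ∈ F', (2 * Bd) := by
          refine sum_le_sum fun v hv => ?_
          calc (((F.filter (fun w => p w = p v) ∪
              F.filter (fun w => p' w = p' v)).card : ℕ) : ℝ) ≤
              ((F.filter (fun w => p w = p v)).card : ℝ) +
                (F.filter (fun w => p' w = p' v)).card := by
                exact_mod_cast card_union_le _ _
            _ ≤ 2 * Bd := by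
                have := h v (hsub hv)
                have := h' v (hsub hv)
                linarith
  rw [sum_const, nsmul_eq_mul] at h1
  linarith

end Pool.EXC.Rnx48
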